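import Pool.Agent.H246Z.HANoPA

set_option autoImplicit false

open Pool.Agent.H246Z.HA

/-- There is a Kripke model of `HA` (with at least one node) in which no node satisfies `PA`. -/
theorem Pool.Agent.Results.MP_bc5999_lc.ANowherePA.result :
    ∃ (K : Type) (_ : PartialOrder K) (U : Type) (𝒦 : Kripke K U),
      Nonempty K ∧ 𝒦.ForcesHA ∧ ∀ k, ¬ (𝒦.M k).IsPA :=
  nowhere_PA
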